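import Pool.Agent.P8H73.GM.Stm

/-!
# Project GM (helper73), package ALL
-/

set_option autoImplicit false

namespace Pool.Agent.P8H44.GM

open Finset Pool.Agent.P8H73.GM

lemma term_nonneg {p : ℕ} (hp : p.Prime) : 0 ≤ Real.log p / (p : ℝ) := by
  have : (1 : ℝ) ≤ p := by exact_mod_cast hp.one_le
  exact div_nonneg (Real.log_nonneg this) (by linarith)

lemma term_le {p : ℕ} (hp : p.Prime) : Real.log p / (p : ℝ) ≤ 1 := by
  have h0 : (0 : ℝ) < p := by exact_mod_cast hp.pos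
  rw [div_le_one h0]
  have := Real.log_le_sub_one_of_pos h0
  linarith

lemma Mm_nonneg {K : Finset ℕ} (hK : ∀ p ∈ K, p.Prime) : 0 ≤ Mm K :=
  sum_nonneg fun p hp => term_nonneg (hK p hp)

lemma Mm_le {C : ℝ} (hM : ∀ x : ℝ, 1 ≤ x →
    |∑ p ∈ (Icc 1 ⌊x⌋₊).filter Nat.Prime, Real.log p / (p : ℝ) - Real.log x| ≤ C)
    {K : Finset ℕ} {D : ℕ} (hD : 2 ≤ D) (hK : ∀ p ∈ K, p.Prime ∧ p ≤ D) :
    Mm K ≤ Real.log D + C := by
  have h1 := hM (D : ℝ) (by exact_mod_cast (by omega : 1 ≤ D))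
  rw [Nat.floor_natCast] at h1
  have h2 : Mm K ≤ ∑ p ∈ (Icc 1 D).filter Nat.Prime, Real.log p / (p : ℝ) := by
    refine sum_le_sum_of_subset_of_nonneg ?_ ?_
    · intro p hp
      rw [mem_filter, mem_Icc]
      exact ⟨⟨(hK p hp).1.one_le, (hK p hp).2⟩, (hK p hp).1⟩
    · intro p hp _
      rw [mem_filter] at hp
      exact term_nonneg hp.2
  have h3 := (abs_le.1 h1).2
  linarith

/-- a subset with `t ≤ Mm K' ≤ 2 t` -/
lemma exists_sub {K : Finset ℕ} (hK : ∀ p ∈ K, p.Prime) {t : ℝ} (ht : 1 ≤ t) (h : t ≤ Mm K) :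
    ∃ K' ⊆ K, t ≤ Mm K' ∧ Mm K' ≤ 2 * t := by
  classical
  have hne : (K.powerset.filter (fun S => t ≤ Mm S)).Nonempty :=
    ⟨K, mem_filter.2 ⟨mem_powerset_self K, h⟩⟩
  obtain ⟨S, hS, hmin⟩ := exists_min_image _ (fun S : Finset ℕ => S.card) hne
  rw [mem_filter, mem_powerset] at hS
  refine ⟨S, hS.1, hS.2, ?_⟩
  by_contra hcon
  push Not at hcon
  have hSne : S.Nonempty := by
    by_contra h0
    rw [not_nonempty_iff_eq_empty] at h0
    rw [h0] at hcon
    unfold Mm at hcon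
    rw [sum_empty] at hcon
    linarith
  obtain ⟨p, hp⟩ := hSne
  have h1 : Mm S = Mm (S.erase p) + Real.log p / (p : ℝ) := by
    unfold Mm
    rw [sum_erase_add _ _ hp]
  have h2 := term_le (hK p (hS.1 hp))
  have h3 : t ≤ Mm (S.erase p) := by linarith
  have h4 := hmin (S.erase p) (mem_filter.2 ⟨mem_powerset.2 ((erase_subset p S).trans hS.1), h3⟩)
  have h5 := card_erase_lt_of_mem hp
  omega

theorem all : S_SMALL → S_MONO → S_MER → S_ALL := by
  rintro ⟨η, c, C, hη0, hη1, hc0, hc1, hC0, hS⟩ hmono ⟨C₀, hC₀, hM⟩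
  have hcη : 0 < c * η / 2 := by positivity
  have hcη8 : c * η / 2 ≤ 1 / 16 := by nlinarith
  have h2η : 0 < 2 / η := by positivity
  refine ⟨c * η / 2, C + 2 / η + C₀, hcη, by linarith, by linarith, ?_⟩
  intro K D hK hD
  have hKp : ∀ p ∈ K, p.Prime := fun p hp => (hK p hp).1
  have hM0 := Mm_nonneg hKp
  have hMD := Mm_le hM hD hK
  have hlD : 0 < Real.log D := Real.log_pos (by exact_mod_cast (by omega : 1 < D))
  by_cases h1 : Mm K ≤ η * Real.log D
  · have h2 := hS K D hK hD h1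
    have h3 : c * η / 2 * Mm K ≤ c * Mm K := mul_le_mul_of_nonneg_right (by nlinarith) hM0
    linarith
  push Not at h1
  by_cases h2 : Real.log D ≤ 2 / η
  · have h3 := hS ∅ D (by simp) hD (by
      unfold Mm; rw [sum_empty]; positivity)
    have h4 := hmono K ∅ hKp (empty_subset K) D (by omega)
    have h5 : Mm ∅ = 0 := by unfold Mm; rw [sum_empty]
    rw [h5, mul_zero] at h3
    have h6 : c * η / 2 * Mm K ≤ 1 / 16 * (2 / η + C₀) :=
      mul_le_mul hcη8 (by linarith) hM0 (by norm_num)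
    linarith
  · push Not at h2
    have ht : 1 ≤ η * Real.log D / 2 := by
      rw [div_lt_iff₀ hη0] at h2
      linarith
    obtain ⟨K', hK', h3, h4⟩ := exists_sub hKp ht (by linarith)
    have h5 := hS K' D (fun p hp => hK p (hK' hp)) hD (by linarith)
    have h6 := hmono K K' hKp hK' D (by omega)
    have h7 : c * (η * Real.log D / 2) ≤ c * Mm K' := mul_le_mul_of_nonneg_left h3 hc0.le
    have h8 : c * η / 2 * Mm K ≤ c * η / 2 * (Real.log D + C₀) :=
      mul_le_mul_of_nonneg_left hMD hcη.le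
    have h9 : c * η / 2 * C₀ ≤ 1 / 16 * C₀ := mul_le_mul_of_nonneg_right hcη8 (by linarith)
    nlinarith

end Pool.Agent.P8H44.GM
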