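import Pool.Agent.P8H73.GM.Stm

/-!
# Project GM (helper73), package ID
-/

set_option autoImplicit false

namespace Pool.Agent.P8H44.GM

open Finset Pool.Agent.P8H73.GM Pool.Agent.H376R2.MR Pool.Agent.H376R2.TT

lemma pr_factors {K : Finset ℕ} (hK : ∀ p ∈ K, p.Prime) : (pr K).primeFactors = K :=
  Nat.primeFactors_prod hK

lemma pr_sqf {K : Finset ℕ} (hK : ∀ p ∈ K, p.Prime) : Squarefree (pr K) := by
  have h := sw_rad_squarefree (pr K)
  unfold sw_rad at h
  rw [pr_factors hK] at h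
  exact h

lemma V_pos' {K : Finset ℕ} (hK : ∀ p ∈ K, p.Prime) : 0 < V K := by
  unfold V
  refine Finset.prod_pos fun p hp => ?_
  have h2 : (2 : ℝ) ≤ p := by exact_mod_cast (hK p hp).two_le
  have h3 : 1 / (p : ℝ) < 1 := by
    rw [div_lt_one (by linarith)]
    linarith
  linarith

lemma sum_sw {K : Finset ℕ} (hK : ∀ p ∈ K, p.Prime) :
    ∑ l ∈ (pr K).divisors, sw_g l = (V K)⁻¹ := by
  have h1 := sw_sum (pr_sqf hK)
  have h2 := sw_phi (pr K)
  rw [pr_factors hK] at h2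
  have hV : ∏ p ∈ K, (1 - (p : ℝ)⁻¹) = V K := by
    unfold V
    refine prod_congr rfl fun p _ => ?_
    rw [one_div]
  rw [hV] at h2
  have hV0 := V_pos' hK
  have hR0 : (0 : ℝ) < pr K := by
    exact_mod_cast Nat.pos_of_ne_zero (pr_sqf hK).ne_zero
  rw [h2] at h1
  have h3 : V K * ∑ l ∈ (pr K).divisors, sw_g l = 1 := by
    have : (pr K : ℝ) * (V K * ∑ l ∈ (pr K).divisors, sw_g l) = (pr K : ℝ) * 1 := by
      rw [mul_one, ← mul_assoc]
      exact h1
    exact mul_left_cancel₀ hR0.ne' this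
  exact eq_inv_of_mul_eq_one_right h3

lemma sum_sw' {K : Finset ℕ} (hK : ∀ p ∈ K, p.Prime) :
    V K * ∑ l ∈ (pr K).divisors, sw_g l = 1 := by
  rw [sum_sw hK]
  exact mul_inv_cancel₀ (V_pos' hK).ne'

lemma G_mono {R A B : ℕ} (h : A ≤ B) : selwq_G R A ≤ selwq_G R B := by
  unfold selwq_G
  exact sum_le_sum_of_subset_of_nonneg (Icc_subset_Icc_right h) fun i _ _ => selwq_g_nonneg R i

theorem decomp (R D : ℕ) (hRs : Squarefree R) :
    sw_G D ≤ ∑ l ∈ R.divisors, sw_g l * selwq_G R (D / l) := by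
  have hR0 : 0 < R := Nat.pos_of_ne_zero hRs.ne_zero
  set S : Finset ℕ := (Icc 1 D).filter (fun m => Squarefree m) with hS
  have h1 : sw_G D = ∑ m ∈ S, sw_g m := by
    symm
    apply Finset.sum_subset (Finset.filter_subset _ _)
    intro m hm hmS
    have : ¬ Squarefree m := fun hs => hmS (Finset.mem_filter.2 ⟨hm, hs⟩)
    unfold sw_g
    rw [if_neg this]
  have hdec : ∀ n ∈ S, ∃ h : ℕ, n = n.gcd R * h ∧ (n.gcd R).Coprime h ∧ h.Coprime R ∧
      1 ≤ h ∧ h ≤ D / n.gcd R := by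
    intro n hn
    rw [hS, Finset.mem_filter, Finset.mem_Icc] at hn
    obtain ⟨⟨hn1, hnD⟩, hns⟩ := hn
    obtain ⟨h, hh⟩ := Nat.gcd_dvd_left n R
    have hns' : Squarefree (n.gcd R * h) := by rw [← hh]; exact hns
    have hcop := sw_coprime hns'
    have hg0 : 0 < n.gcd R := Nat.gcd_pos_of_pos_right _ hR0
    have hh0 : 0 < h := by
      rcases Nat.eq_zero_or_pos h with h0 | h0
      · rw [h0, mul_zero] at hh; omega
      · exact h0
    refine ⟨h, hh, hcop, ?_, hh0, ?_⟩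
    · by_contra hnc
      obtain ⟨p, hp, hph, hpR⟩ := Nat.Prime.not_coprime_iff_dvd.1 hnc
      have hpn : p ∣ n := by rw [hh]; exact Dvd.dvd.mul_left hph _
      have hpg : p ∣ n.gcd R := Nat.dvd_gcd hpn hpR
      exact Nat.Prime.not_coprime_iff_dvd.2 ⟨p, hp, hpg, hph⟩ hcop
    · rw [Nat.le_div_iff_mul_le hg0, mul_comm]
      omega
  have hd' : ∀ n ∈ S, ∀ h : ℕ, n = n.gcd R * h → n / n.gcd R = h := by
    intro n _ h hh
    have hg0 : 0 < n.gcd R := Nat.gcd_pos_of_pos_right _ hR0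
    exact Nat.div_eq_of_eq_mul_right hg0 hh
  have h2 : ∀ n ∈ S, sw_g n = sw_g (n.gcd R) * selwq_g R (n / n.gcd R) := by
    intro n hn
    obtain ⟨h, hh, hcop, hcq, _, _⟩ := hdec n hn
    rw [hd' n hn h hh]
    unfold selwq_g
    rw [if_pos hcq, ← sw_g_mul hcop, ← hh]
  rw [h1, Finset.sum_congr rfl h2]
  have hinj : Set.InjOn (fun n : ℕ => (⟨n.gcd R, n / n.gcd R⟩ : Σ _ : ℕ, ℕ)) (S : Set ℕ) := by
    intro n _ n' _ heq
    have h3 : n.gcd R = n'.gcd R := congrArg Sigma.fst heq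
    have h4 : n / n.gcd R = n' / n'.gcd R := by
      have := congrArg (fun x : Σ _ : ℕ, ℕ => x.2) heq
      exact this
    have e1 : n = n.gcd R * (n / n.gcd R) := (Nat.mul_div_cancel' (Nat.gcd_dvd_left n R)).symm
    have e2 : n' = n'.gcd R * (n' / n'.gcd R) := (Nat.mul_div_cancel' (Nat.gcd_dvd_left n' R)).symm
    rw [e1, e2, h4, h3]
  have h3 : ∑ n ∈ S, sw_g (n.gcd R) * selwq_g R (n / n.gcd R) =
      ∑ x ∈ S.image (fun n : ℕ => (⟨n.gcd R, n / n.gcd R⟩ : Σ _ : ℕ, ℕ)),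
        sw_g x.1 * selwq_g R x.2 := by
    rw [Finset.sum_image hinj]
  rw [h3]
  have h4 : ∑ x ∈ S.image (fun n : ℕ => (⟨n.gcd R, n / n.gcd R⟩ : Σ _ : ℕ, ℕ)),
      sw_g x.1 * selwq_g R x.2 ≤
      ∑ x ∈ R.divisors.sigma (fun l => Icc 1 (D / l)), sw_g x.1 * selwq_g R x.2 := by
    apply Finset.sum_le_sum_of_subset_of_nonneg
    · intro x hx
      obtain ⟨n, hn, rfl⟩ := Finset.mem_image.1 hx
      obtain ⟨h, hh, hcop, hcq, hh1, hhD⟩ := hdec n hn
      rw [Finset.mem_sigma, Finset.mem_Icc, Nat.mem_divisors]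
      refine ⟨⟨Nat.gcd_dvd_right n R, hR0.ne'⟩, ?_⟩
      show 1 ≤ n / n.gcd R ∧ n / n.gcd R ≤ D / n.gcd R
      rw [hd' n hn h hh]
      exact ⟨hh1, hhD⟩
    · intro x _ _
      exact mul_nonneg (sw_g_nonneg _) (selwq_g_nonneg R _)
  refine h4.trans (le_of_eq ?_)
  rw [Finset.sum_sigma]
  refine sum_congr rfl fun l _ => ?_
  unfold selwq_G
  rw [mul_sum]

lemma sw_g_prime {p : ℕ} (hp : p.Prime) : sw_g p = 1 / ((p : ℝ) - 1) := by
  unfold sw_g
  rw [if_pos hp.squarefree, Nat.totient_prime hp, Nat.cast_sub hp.one_le, Nat.cast_one]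

theorem id : S_ID := by
  classical
  intro K S hK hS D hD
  have hSp : ∀ p ∈ S, p.Prime := fun p hp => hK p (hS hp)
  have hKS : ∀ p ∈ K \ S, p.Prime := fun p hp => hK p (mem_sdiff.1 hp).1
  have hVK := V_pos' hK
  have hVS := V_pos' hSp
  have hVKS := V_pos' hKS
  have hVmul : V K = V (K \ S) * V S := by
    unfold V
    rw [prod_sdiff hS]
  have hprmul : pr K = pr (K \ S) * pr S := by
    unfold P8H73.GM.pr
    rw [prod_sdiff hS]
  set R := pr K with hR
  have hRs : Squarefree R := pr_sqf hK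
  have hR0 : R ≠ 0 := hRs.ne_zero
  have h1 := (sw_G_ge D hD).trans (decomp R D hRs)
  have h2 := sum_sw' hK
  -- the main inequality
  have h3 : Real.log D + ∑ l ∈ R.divisors, sw_g l * (G K D - G K (D / l)) ≤ G K D / V K := by
    have h4 : ∑ l ∈ R.divisors, sw_g l * (G K D - G K (D / l)) =
        (∑ l ∈ R.divisors, sw_g l) * G K D - ∑ l ∈ R.divisors, sw_g l * selwq_G R (D / l) := by
      rw [sum_mul, ← sum_sub_distrib]
      refine sum_congr rfl fun l _ => ?_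
      unfold G
      ring
    have h5 : (∑ l ∈ R.divisors, sw_g l) * G K D = G K D / V K := by
      rw [eq_div_iff hVK.ne']
      calc (∑ l ∈ R.divisors, sw_g l) * G K D * V K =
          (V K * ∑ l ∈ R.divisors, sw_g l) * G K D := by ring
        _ = G K D := by rw [h2, one_mul]
    rw [h4, h5]
    linarith
  refine le_trans ?_ h3
  have hterm : ∀ l, 0 ≤ sw_g l * (G K D - G K (D / l)) := fun l =>
    mul_nonneg (sw_g_nonneg l) (sub_nonneg.2 (G_mono (Nat.div_le_self D l)))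
  set R₀ := pr (K \ S) with hR₀
  have hR₀s : Squarefree R₀ := pr_sqf hKS
  -- primes of `S` do not divide the divisors of `R₀`
  have hnd : ∀ p ∈ S, ∀ l ∈ R₀.divisors, ¬ p ∣ l := by
    intro p hp l hl hpl
    have h4 : p ∈ R₀.primeFactors := Nat.mem_primeFactors.2
      ⟨hSp p hp, hpl.trans (Nat.dvd_of_mem_divisors hl), hR₀s.ne_zero⟩
    rw [hR₀, pr_factors hKS] at h4
    exact (mem_sdiff.1 h4).2 hp
  have hinj : Set.InjOn (fun x : ℕ × ℕ => x.1 * x.2) (S ×ˢ R₀.divisors : Finset (ℕ × ℕ)) := by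
    rintro ⟨p, l⟩ hx ⟨p', l'⟩ hx' heq
    rw [mem_coe, mem_product] at hx hx'
    simp only at hx hx' heq
    have hp : p = p' := by
      have h4 : p ∣ p' * l' := by rw [← heq]; exact dvd_mul_right p l
      rcases (hSp p hx.1).dvd_mul.1 h4 with h5 | h5
      · exact (Nat.prime_dvd_prime_iff_eq (hSp p hx.1) (hSp p' hx'.1)).1 h5
      · exact absurd h5 (hnd p hx.1 l' hx'.2)
    subst hp
    have hl : l = l' := Nat.eq_of_mul_eq_mul_left (hSp p hx.1).pos heq
    rw [hl]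
  have hsub : (S ×ˢ R₀.divisors).image (fun x : ℕ × ℕ => x.1 * x.2) ⊆ R.divisors := by
    intro n hn
    obtain ⟨⟨p, l⟩, hx, rfl⟩ := mem_image.1 hn
    rw [mem_product] at hx
    rw [Nat.mem_divisors]
    refine ⟨?_, hR0⟩
    show p * l ∣ R
    rw [hprmul, mul_comm p l]
    exact mul_dvd_mul (Nat.dvd_of_mem_divisors hx.2) (dvd_prod_of_mem (fun p => p) hx.1)
  have h4 : ∑ x ∈ S ×ˢ R₀.divisors, sw_g (x.1 * x.2) * (G K D - G K (D / (x.1 * x.2))) ≤
      ∑ l ∈ R.divisors, sw_g l * (G K D - G K (D / l)) := by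
    rw [← sum_image (f := fun n => sw_g n * (G K D - G K (D / n))) hinj]
    exact sum_le_sum_of_subset_of_nonneg hsub fun l _ _ => hterm l
  have h5 : V S * ∑ p ∈ S, 1 / (p : ℝ) * ((G K D - G K (D / p)) / V K) ≤
      ∑ x ∈ S ×ˢ R₀.divisors, sw_g (x.1 * x.2) * (G K D - G K (D / (x.1 * x.2))) := by
    rw [sum_product, mul_sum]
    refine sum_le_sum fun p hp => ?_
    have hp2 : (2 : ℝ) ≤ p := by exact_mod_cast (hSp p hp).two_le
    have hGp : 0 ≤ G K D - G K (D / p) := sub_nonneg.2 (G_mono (Nat.div_le_self D p))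
    have h6 : ∀ l ∈ R₀.divisors, sw_g l * (1 / (p : ℝ) * (G K D - G K (D / p))) ≤
        sw_g (p * l) * (G K D - G K (D / (p * l))) := by
      intro l hl
      have hcop : Nat.Coprime p l := (Nat.Prime.coprime_iff_not_dvd (hSp p hp)).2 (hnd p hp l hl)
      rw [sw_g_mul hcop, sw_g_prime (hSp p hp)]
      have h7 : 1 / (p : ℝ) ≤ 1 / ((p : ℝ) - 1) :=
        one_div_le_one_div_of_le (by linarith) (by linarith)
      have h8 : D / (p * l) ≤ D / p := by
        rw [← Nat.div_div_eq_div_mul]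
        exact Nat.div_le_self _ _
      have h9 : G K (D / (p * l)) ≤ G K (D / p) := G_mono h8
      have h10 := sw_g_nonneg l
      have h11 : 0 ≤ 1 / (p : ℝ) := by positivity
      calc sw_g l * (1 / (p : ℝ) * (G K D - G K (D / p))) ≤
          sw_g l * (1 / ((p : ℝ) - 1) * (G K D - G K (D / (p * l)))) := by
            refine mul_le_mul_of_nonneg_left ?_ h10
            exact mul_le_mul h7 (by linarith) hGp (h11.trans h7)
        _ = _ := by ring
    refine le_trans (le_of_eq ?_) (sum_le_sum h6)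
    rw [← sum_mul, sum_sw hKS, hVmul]
    field_simp
  linarith

end Pool.Agent.P8H44.GM
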